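import Pool.Agent.Helper68.SK.Goals

set_option autoImplicit false

namespace Pool.Agent.Helper69.SK

open Finset Pool.Agent.Helper68.SK

section

variable {V E P : Type} [Fintype V] [DecidableEq V] [Fintype E] [DecidableEq E] [DecidableEq P]

theorem push_inr (c : V → P) (z : V ⊕ E → ℤ) (e : E) :
    push (col E c) z (.inr e) = z (.inr e) := by
  unfold push
  rw [Fintype.sum_sum_type]
  have h1 : ∀ v : V, (if col E c (.inl v) = .inr e then z (.inl v) else 0) = 0 := by
    intro v
    simp [col]
  have h2 : ∀ e' : E, (if col E c (.inr e') = .inr e then z (.inr e') else 0) =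
      if e' = e then z (.inr e') else 0 := by
    intro e'
    simp [col]
  simp only [h1, h2]
  simp

theorem push_inl (c : V → P) (z : V ⊕ E → ℤ) (p : P) :
    push (col E c) z (.inl p) = ∑ v, if c v = p then z (.inl v) else 0 := by
  unfold push
  rw [Fintype.sum_sum_type]
  have h1 : ∀ v : V, (if col E c (.inl v) = .inl p then z (.inl v) else 0) =
      if c v = p then z (.inl v) else 0 := by
    intro v
    simp [col]
  have h2 : ∀ e' : E, (if col E c (.inr e') = .inl p then z (.inr e') else 0) = 0 := by
    intro e'
    simp [col]
  simp only [h1, h2]
  simp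

theorem key (c : V → P) (v₀ : V) (z : V ⊕ E → ℤ) :
    push (col E (spc c v₀)) z = spl (c v₀) (push (col E c) z) (z (.inl v₀)) := by
  funext a
  rcases a with o | e
  · rw [push_inl]
    cases o with
    | none =>
      change _ = z (.inl v₀)
      have h : ∀ v : V, (if spc c v₀ v = none then z (.inl v) else 0) =
          if v = v₀ then z (.inl v) else 0 := by
        intro v
        by_cases hv : v = v₀
        · simp [spc, hv]
        · simp [spc, hv]
      simp only [h]
      simp
    | some p =>
      have h : ∀ v : V, (if spc c v₀ v = some p then z (.inl v) else 0) =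
          (if c v = p then z (.inl v) else 0) -
            if v = v₀ then (if c v₀ = p then z (.inl v₀) else 0) else 0 := by
        intro v
        by_cases hv : v = v₀
        · subst hv
          simp [spc]
        · simp [spc, hv]
      simp only [h]
      rw [Finset.sum_sub_distrib, Finset.sum_ite_eq' univ v₀, if_pos (mem_univ _)]
      change _ = (if p = c v₀ then push (col E c) z (.inl p) - z (.inl v₀)
        else push (col E c) z (.inl p))
      rw [push_inl]
      by_cases hp : p = c v₀
      · rw [if_pos hp, if_pos hp.symm]
      · rw [if_neg hp, if_neg (fun h => hp h.symm), sub_zero]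
  · rw [push_inr]
    change _ = push (col E c) z (.inr e)
    rw [push_inr]

theorem spl_inj {x : P} {w w' : P ⊕ E → ℤ} {i i' : ℤ} (h : spl x w i = spl x w' i') :
    w = w' ∧ i = i' := by
  have hi : i = i' := congrFun h (.inl none)
  refine ⟨?_, hi⟩
  funext a
  rcases a with p | e
  · have h1 := congrFun h (.inl (some p))
    simp only [spl] at h1
    by_cases hp : p = x
    · rw [if_pos hp, if_pos hp] at h1
      rw [hi] at h1
      exact sub_left_injective h1
    · rw [if_neg hp, if_neg hp] at h1
      exact h1
  · exact congrFun h (.inr e)

theorem iff_key (c : V → P) (v₀ : V) (z : V ⊕ E → ℤ) (w : P ⊕ E → ℤ) (i : ℤ) :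
    push (col E (spc c v₀)) z = spl (c v₀) w i ↔
      push (col E c) z = w ∧ z (.inl v₀) = i := by
  rw [key]
  constructor
  · intro h
    exact spl_inj h
  · rintro ⟨h1, h2⟩
    rw [h1, h2]

end

theorem cntSK : Pool.Agent.Helper68.SK.GoalCnt := by
  intro hF V E P _ _ _ _ _ _ g c v₀
  refine ⟨?_, ?_, ?_⟩
  · intro w
    obtain ⟨hfin, -, -, -⟩ := hF V E P g c
    have hA := hfin w
    set A := hA.toFinset with hAdef
    have hmemA : ∀ z, z ∈ A ↔ z ∈ JJ g ∧ push (col E c) z = w := by
      intro z
      rw [hAdef, Set.Finite.mem_toFinset]
      rfl
    have hB : ∀ i : ℤ, cnt g (spc c v₀) (spl (c v₀) w i) =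
        ((A.filter fun z => z (.inl v₀) = i).card : ℝ) := by
      intro i
      unfold cnt
      have e : {z : V ⊕ E → ℤ | z ∈ JJ g ∧ push (col E (spc c v₀)) z = spl (c v₀) w i} =
          ((A.filter fun z => z (.inl v₀) = i : Finset (V ⊕ E → ℤ)) : Set (V ⊕ E → ℤ)) := by
        ext z
        rw [Finset.mem_coe, Finset.mem_filter, hmemA]
        change (z ∈ JJ g ∧ push (col E (spc c v₀)) z = spl (c v₀) w i) ↔ _
        rw [iff_key]
        tauto
      rw [e, Set.ncard_coe_finset]
    refine ⟨A.sup fun z => (z (.inl v₀)).natAbs, fun N hN => ?_⟩
    have hle : ∀ z ∈ A, (z (.inl v₀)).natAbs ≤ N := fun z hz =>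
      (Finset.le_sup (f := fun z : V ⊕ E → ℤ => (z (.inl v₀)).natAbs) hz).trans hN
    refine ⟨?_, ?_⟩
    · have hcA : cnt g c w = (A.card : ℝ) := by
        unfold cnt
        have e : {z : V ⊕ E → ℤ | z ∈ JJ g ∧ push (col E c) z = w} = (A : Set (V ⊕ E → ℤ)) := by
          ext z
          rw [Finset.mem_coe, hmemA]
          exact Iff.rfl
        rw [e, Set.ncard_coe_finset]
      have hmap : ∀ z ∈ A, z (.inl v₀) ∈ Icc (-(N : ℤ)) (N : ℤ) := by
        intro z hz
        have := hle z hz
        rw [Finset.mem_Icc]
        omega
      rw [hcA, Finset.card_eq_sum_card_fiberwise (f := fun z : V ⊕ E → ℤ => z (.inl v₀)) hmap]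
      push_cast
      exact Finset.sum_congr rfl fun i _ => (hB i).symm
    · intro i hi
      rw [hB i]
      have : A.filter (fun z => z (.inl v₀) = i) = ∅ := by
        rw [Finset.filter_eq_empty_iff]
        intro z hz h
        have := hle z hz
        rw [h] at this
        rw [Int.abs_eq_natAbs] at hi
        omega
      rw [this]
      simp
  · intro w z h
    rw [key, h]
  · intro w i
    refine ⟨?_, ?_, ?_, ?_, ?_⟩
    · funext a
      rcases a with o | e
      · cases o with
        | none => simp [spl, δ]
        | some p =>
          by_cases hp : p = c v₀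
          · subst hp
            simp [spl, δ]
          · simp [spl, δ, hp]
      · simp [spl, δ]
    · funext a
      rcases a with o | e
      · cases o with
        | none => simp [spl, δ]
        | some p =>
          by_cases hp : p = c v₀
          · subst hp
            simp [spl, δ]
            ring
          · simp [spl, δ, hp]
      · simp [spl, δ]
    · intro p' hp'
      funext a
      rcases a with o | e
      · cases o with
        | none => simp [spl, δ]
        | some p =>
          by_cases hp : p = c v₀
          · subst hp
            simp [spl, δ, hp'.symm]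
          · by_cases hpp : p = p'
            · subst hpp
              simp [spl, δ, hp]
            · simp [spl, δ, hp, hpp]
      · simp [spl, δ]
    · intro e'
      funext a
      rcases a with o | e
      · cases o with
        | none => simp [spl, δ]
        | some p =>
          by_cases hp : p = c v₀
          · subst hp
            simp [spl, δ]
          · simp [spl, δ, hp]
      · by_cases he : e = e'
        · subst he
          simp [spl, δ]
        · simp [spl, δ, he]
    · funext a
      rcases a with o | e
      · cases o with
        | none => simp [spl, δ]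
        | some p =>
          by_cases hp : p = c v₀
          · subst hp
            simp [spl, δ]
            ring
          · simp [spl, δ, hp]
      · simp [spl, δ]

end Pool.Agent.Helper69.SK
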